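import Pool.Agent.K4H90.CM.A

set_option autoImplicit false

/-!
# Comparison of kernels and the direct limit theorem
-/

namespace Pool.Agent.K4H49.SV.CM

open MeasureTheory Filter Topology Set

noncomputable section

lemma mid_le {f H : ℝ → ℝ} {δ M : ℝ} (hf : Continuous f) (hf0 : ∀ u, 0 ≤ f u) {a b : ℝ} (ha : 0 ≤ a) (hab : a ≤ b)
    (hH : ContinuousOn H (Icc a b)) (hδ : ∀ u ∈ Icc a b, |H u| ≤ δ) (hδ0 : 0 ≤ δ)
    (hM : ∫ u in (0:ℝ)..b, f u ≤ M) :
    |∫ u in a..b, H u * f u| ≤ δ * M := by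
  have h1 := intervalIntegral.norm_integral_le_integral_norm (f := fun u => H u * f u) (μ := volume) hab
  rw [Real.norm_eq_abs] at h1
  have h2 : ∫ u in a..b, ‖H u * f u‖ ≤ ∫ u in a..b, δ * f u := by
    apply intervalIntegral.integral_mono_on hab
    · apply ContinuousOn.intervalIntegrable
      rw [uIcc_of_le hab]
      exact (hH.mul hf.continuousOn).norm
    · exact (continuous_const.mul hf).intervalIntegrable _ _
    · intro u hu
      rw [norm_mul, Real.norm_eq_abs, Real.norm_eq_abs, abs_of_nonneg (hf0 u)]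
      exact mul_le_mul_of_nonneg_right (hδ u hu) (hf0 u)
  rw [intervalIntegral.integral_const_mul] at h2
  have h3 : (∫ u in (0:ℝ)..a, f u) + ∫ u in a..b, f u = ∫ u in (0:ℝ)..b, f u :=
    intervalIntegral.integral_add_adjacent_intervals (hf.intervalIntegrable _ _) (hf.intervalIntegrable _ _)
  have h4 : 0 ≤ ∫ u in (0:ℝ)..a, f u := intervalIntegral.integral_nonneg ha (fun u _ => hf0 u)
  have h5 : ∫ u in a..b, f u ≤ M := by linarith
  have h6 := mul_le_mul_of_nonneg_left h5 hδ0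
  linarith

lemma exists_large (K : ℝ) (ε : ℝ) (hε : 0 < ε) (c : ℝ) :
    ∃ b : ℝ, 1 ≤ b ∧ c ≤ b ∧ K * b ^ (-(1 / 2) : ℝ) ≤ ε := by
  have htend : Tendsto (fun b : ℝ => K * b ^ (-(1 / 2) : ℝ)) atTop (𝓝 (K * 0)) :=
    (tendsto_rpow_neg_atTop (by norm_num)).const_mul _
  rw [mul_zero] at htend
  obtain ⟨b, h1, h2, h3⟩ := ((eventually_ge_atTop (1:ℝ)).and ((eventually_ge_atTop c).and
    (htend.eventually_le_const hε))).exists
  exact ⟨b, h1, h2, h3⟩

theorem cm_core : ∀ (f G : ℝ → ℝ → ℝ) (g : ℝ → ℝ) (C : ℝ), (∀ T, Continuous (f T)) → (∀ T u, 0 ≤ f T u) →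
  (∀ T, ContinuousOn (G T) (Ioi 0)) → ContinuousOn g (Ioi 0) →
  (∀ᶠ T : ℝ in atTop, ∀ x : ℝ, 1 ≤ x → ∫ u in (0:ℝ)..x, f T u ≤ C * x ^ (3 / 2 : ℝ)) →
  (∀ ε : ℝ, 0 < ε → ∃ a : ℝ, 0 < a ∧ ∀ᶠ T : ℝ in atTop, ∫ u in (0:ℝ)..a, f T u ≤ ε) →
  (∀ᶠ T : ℝ in atTop, ∀ u : ℝ, 0 < u → |G T u| ≤ C ∧ |G T u| * u ^ 2 ≤ C) →
  (∀ u : ℝ, 0 < u → |g u| ≤ C ∧ |g u| * u ^ 2 ≤ C) →
  (∀ a b : ℝ, 0 < a → a < b → ∀ ε : ℝ, 0 < ε → ∀ᶠ T : ℝ in atTop, ∀ u ∈ Icc a b, |G T u - g u| ≤ ε) →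
  (∀ᶠ T : ℝ in atTop, IntegrableOn (fun u => G T u * f T u) (Ioi 0) ∧ IntegrableOn (fun u => g u * f T u) (Ioi 0)) ∧
  Tendsto (fun T => (∫ u in Ioi (0:ℝ), G T u * f T u) - ∫ u in Ioi (0:ℝ), g u * f T u) atTop (𝓝 0) := by
  intro f G g C hf hf0 hG hg hF hsmall hGb hgb hGg
  have hC : 0 ≤ C := (abs_nonneg _).trans (hgb 1 one_pos).1
  refine ⟨?_, ?_⟩
  · filter_upwards [hF, hGb] with T hT hGT
    exact ⟨integ (hf T) (hf0 T) (hG T) hT hGT, integ (hf T) (hf0 T) hg hT hgb⟩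
  rw [Metric.tendsto_nhds]
  intro ε hε
  obtain ⟨a, ha, hsa⟩ := hsmall (ε / (8 * C + 8)) (by positivity)
  obtain ⟨b, hb1, hb2, hb3⟩ := exists_large (4 * C * (2 * C)) (ε / 4) (by positivity) (a + 1)
  have hab : a < b := by linarith
  have hb0 : 0 < b := by linarith
  set M : ℝ := C * b ^ (3 / 2 : ℝ) with hM
  have hM0 : 0 ≤ M := by positivity
  filter_upwards [hF, hGb, hsa, hGg a b ha hab (ε / (4 * (M + 1))) (by positivity)] with T h1 h2 h3 h4
  have hH : ∀ u : ℝ, 0 < u → |G T u - g u| ≤ 2 * C ∧ |G T u - g u| * u ^ 2 ≤ 2 * C := by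
    intro u hu
    have h5 : |G T u - g u| ≤ |G T u| + |g u| := abs_sub _ _
    have h6 := h2 u hu
    have h7 := hgb u hu
    refine ⟨by linarith [h6.1, h7.1], ?_⟩
    have h8 : |G T u - g u| * u ^ 2 ≤ (|G T u| + |g u|) * u ^ 2 := mul_le_mul_of_nonneg_right h5 (by positivity)
    rw [add_mul] at h8
    linarith [h6.2, h7.2]
  have hcH : ContinuousOn (fun u => G T u - g u) (Ioi 0) := (hG T).sub hg
  have hint := integ (hf T) (hf0 T) hcH h1 hH
  have hi1 := integ (hf T) (hf0 T) (hG T) h1 h2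
  have hi2 := integ (hf T) (hf0 T) hg h1 hgb
  rw [Real.dist_eq, sub_zero, ← integral_sub hi1 hi2]
  have e1 : ∫ u in Ioi (0:ℝ), (G T u * f T u - g u * f T u) = ∫ u in Ioi (0:ℝ), (G T u - g u) * f T u := by
    congr 1; ext u; ring
  rw [e1, split hint ha.le hab.le]
  have p1 := (head (hf T) (hf0 T) hcH (fun u hu => (hH u hu).1) ha.le).2
  have p3 := (tail (hf T) (hf0 T) hcH h1 (fun u hu => (hH u hu).2) hb1).2
  have p2 := mid_le (hf T) (hf0 T) ha.le hab.le (hcH.mono (fun u hu => lt_of_lt_of_le ha hu.1)) h4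
    (by positivity) (h1 b hb1)
  have q1 : 2 * C * ∫ u in (0:ℝ)..a, f T u ≤ ε / 4 := by
    have := mul_le_mul_of_nonneg_left h3 (by positivity : 0 ≤ 2 * C)
    have h9 : 2 * C * (ε / (8 * C + 8)) ≤ ε / 4 := by
      rw [mul_div_assoc', div_le_div_iff₀ (by positivity) (by positivity)]
      nlinarith
    linarith
  have q2 : ε / (4 * (M + 1)) * M ≤ ε / 4 := by
    rw [div_mul_eq_mul_div, div_le_div_iff₀ (by positivity) (by positivity)]
    nlinarith
  have q3 := abs_add_three (∫ u in Ioc 0 a, (G T u - g u) * f T u) (∫ u in a..b, (G T u - g u) * f T u)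
    (∫ u in Ioi b, (G T u - g u) * f T u)
  linarith

lemma F_mono {f : ℝ → ℝ} (hf : Continuous f) (hf0 : ∀ u, 0 ≤ f u) {x y : ℝ} (hxy : x ≤ y) :
    ∫ u in (0:ℝ)..x, f u ≤ ∫ u in (0:ℝ)..y, f u := by
  have h3 : (∫ u in (0:ℝ)..x, f u) + ∫ u in x..y, f u = ∫ u in (0:ℝ)..y, f u :=
    intervalIntegral.integral_add_adjacent_intervals (hf.intervalIntegrable _ _) (hf.intervalIntegrable _ _)
  have h4 : 0 ≤ ∫ u in x..y, f u := intervalIntegral.integral_nonneg hxy (fun u _ => hf0 u)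
  linarith

lemma by_parts {f : ℝ → ℝ} (hf : Continuous f) (p : Polynomial ℝ) (a b : ℝ) :
    ∫ u in a..b, p.eval u * f u = p.eval b * (∫ u in (0:ℝ)..b, f u) - p.eval a * (∫ u in (0:ℝ)..a, f u) -
      ∫ u in a..b, p.derivative.eval u * ∫ v in (0:ℝ)..u, f v := by
  apply intervalIntegral.integral_mul_deriv_eq_deriv_mul (u := fun u => p.eval u)
    (v := fun x => ∫ u in (0:ℝ)..x, f u) (u' := fun u => p.derivative.eval u) (v' := f)
  · intro x _
    exact p.hasDerivAt x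
  · intro x _
    exact (hf.integral_hasStrictDerivAt 0 x).hasDerivAt
  · exact p.derivative.continuous.intervalIntegrable _ _
  · exact hf.intervalIntegrable _ _

lemma mid_poly {f : ℝ → ℝ → ℝ} {S C : ℝ} (hf : ∀ T, Continuous (f T)) (hf0 : ∀ T u, 0 ≤ f T u)
    (hF : ∀ᶠ T : ℝ in atTop, ∀ x : ℝ, 1 ≤ x → ∫ u in (0:ℝ)..x, f T u ≤ C * x ^ (3 / 2 : ℝ))
    (hlim : ∀ x : ℝ, 0 < x → Tendsto (fun T => ∫ u in (0:ℝ)..x, f T u) atTop (𝓝 (S * x)))
    (p : Polynomial ℝ) {a b : ℝ} (ha : 0 < a) (hab : a < b) :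
    Tendsto (fun T => ∫ u in a..b, p.eval u * f T u) atTop (𝓝 (S * ∫ u in a..b, p.eval u)) := by
  have h0 : S * ∫ u in a..b, p.eval u = p.eval b * (S * b) - p.eval a * (S * a) -
      ∫ u in a..b, p.derivative.eval u * (S * u) := by
    have h1 := by_parts (f := fun _ => S) continuous_const p a b
    simp only [intervalIntegral.integral_const, sub_zero, smul_eq_mul] at h1
    rw [← intervalIntegral.integral_const_mul]
    have h2 : ∫ u in a..b, S * p.eval u = ∫ u in a..b, p.eval u * S := by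
      congr 1; ext u; ring
    rw [h2, h1]
    have h3 : ∫ u in a..b, p.derivative.eval u * (u * S) = ∫ u in a..b, p.derivative.eval u * (S * u) := by
      congr 1; ext u; ring
    rw [h3]; ring
  rw [h0]
  simp_rw [fun T => by_parts (hf T) p a b]
  refine ((hlim b (ha.trans hab)).const_mul _).sub ((hlim a ha).const_mul _) |>.sub ?_
  obtain ⟨M, hM⟩ := isCompact_Icc.exists_bound_of_continuousOn (s := Icc a b) (f := fun u => p.derivative.eval u)
    p.derivative.continuous.continuousOn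
  refine intervalIntegral.tendsto_integral_filter_of_dominated_convergence
    (fun _ => M * (C * (max b 1) ^ (3 / 2 : ℝ))) ?_ ?_ ?_ ?_
  · refine Eventually.of_forall (fun T => ?_)
    apply Continuous.aestronglyMeasurable
    apply p.derivative.continuous.mul
    exact intervalIntegral.continuous_primitive (fun _ _ => (hf T).intervalIntegrable _ _) 0
  · filter_upwards [hF] with T hT
    refine Eventually.of_forall (fun u hu => ?_)
    rw [uIoc_of_le hab.le] at hu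
    have hu0 : 0 < u := ha.trans hu.1
    have h1 := hM u ⟨hu.1.le, hu.2⟩
    have h2 : 0 ≤ ∫ v in (0:ℝ)..u, f T v := intervalIntegral.integral_nonneg hu0.le (fun v _ => hf0 T v)
    have h3 : ∫ v in (0:ℝ)..u, f T v ≤ C * (max b 1) ^ (3 / 2 : ℝ) :=
      (F_mono (hf T) (hf0 T) (hu.2.trans (le_max_left b 1))).trans (hT _ (le_max_right b 1))
    rw [norm_mul, Real.norm_eq_abs (∫ v in (0:ℝ)..u, f T v), abs_of_nonneg h2]
    exact mul_le_mul h1 h3 h2 ((norm_nonneg _).trans h1)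
  · exact intervalIntegrable_const
  · refine Eventually.of_forall (fun u hu => ?_)
    rw [uIoc_of_le hab.le] at hu
    exact (hlim u (ha.trans hu.1)).const_mul _

lemma mid_lim {f : ℝ → ℝ → ℝ} {g : ℝ → ℝ} {S C : ℝ} (hf : ∀ T, Continuous (f T)) (hf0 : ∀ T u, 0 ≤ f T u)
    (hF : ∀ᶠ T : ℝ in atTop, ∀ x : ℝ, 1 ≤ x → ∫ u in (0:ℝ)..x, f T u ≤ C * x ^ (3 / 2 : ℝ))
    (hlim : ∀ x : ℝ, 0 < x → Tendsto (fun T => ∫ u in (0:ℝ)..x, f T u) atTop (𝓝 (S * x)))
    (hC : 0 ≤ C) {a b : ℝ} (ha : 0 < a) (hab : a < b) (hb1 : 1 ≤ b) (hg : ContinuousOn g (Icc a b)) :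
    Tendsto (fun T => ∫ u in a..b, g u * f T u) atTop (𝓝 (S * ∫ u in a..b, g u)) := by
  rw [Metric.tendsto_nhds]
  intro ε hε
  have hb0 : 0 < b := by linarith
  set M : ℝ := C * b ^ (3 / 2 : ℝ) + |S| * b with hM
  have hM0 : 0 ≤ M := by positivity
  set δ : ℝ := ε / (4 * (M + 1)) with hδ
  have hδ0 : 0 < δ := by positivity
  obtain ⟨p, hp⟩ := exists_polynomial_near_of_continuousOn a b g hg δ hδ0
  have hp1 := (Metric.tendsto_nhds.1 (mid_poly hf hf0 hF hlim p ha hab)) (ε / 4) (by positivity)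
  filter_upwards [hF, hp1] with T h1 h2
  rw [Real.dist_eq] at h2 ⊢
  have hcH : ContinuousOn (fun u => g u - p.eval u) (Icc a b) := hg.sub p.continuous.continuousOn
  have hHb : ∀ u ∈ Icc a b, |g u - p.eval u| ≤ δ := by
    intro u hu
    rw [abs_sub_comm]
    exact (hp u hu).le
  have q1 := mid_le (hf T) (hf0 T) ha.le hab.le hcH hHb hδ0.le (h1 b hb1)
  have q2 := mid_le (f := fun _ => (1:ℝ)) continuous_const (fun _ => zero_le_one) ha.le hab.le hcH hHb hδ0.le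
    (M := b) (by simp)
  have i1 : IntervalIntegrable (fun u => g u * f T u) volume a b := by
    apply ContinuousOn.intervalIntegrable; rw [uIcc_of_le hab.le]; exact hg.mul (hf T).continuousOn
  have i2 : IntervalIntegrable (fun u => p.eval u * f T u) volume a b :=
    (p.continuous.mul (hf T)).intervalIntegrable _ _
  have i3 : IntervalIntegrable g volume a b := by
    apply ContinuousOn.intervalIntegrable; rw [uIcc_of_le hab.le]; exact hg
  have i4 : IntervalIntegrable (fun u => p.eval u) volume a b := p.continuous.intervalIntegrable _ _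
  have e1 : ∫ u in a..b, (g u - p.eval u) * f T u = (∫ u in a..b, g u * f T u) - ∫ u in a..b, p.eval u * f T u := by
    rw [← intervalIntegral.integral_sub i1 i2]; congr 1; ext u; ring
  have e2 : ∫ u in a..b, (g u - p.eval u) * 1 = (∫ u in a..b, g u) - ∫ u in a..b, p.eval u := by
    rw [← intervalIntegral.integral_sub i3 i4]; congr 1; ext u; ring
  rw [e1] at q1
  rw [e2] at q2
  have q3 : |S * ((∫ u in a..b, g u) - ∫ u in a..b, p.eval u)| ≤ |S| * (δ * b) := by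
    rw [abs_mul]
    exact mul_le_mul_of_nonneg_left q2 (abs_nonneg _)
  have q4 : δ * (C * b ^ (3 / 2 : ℝ)) + |S| * (δ * b) ≤ ε / 4 := by
    have : δ * (C * b ^ (3 / 2 : ℝ)) + |S| * (δ * b) = δ * M := by rw [hM]; ring
    rw [this, hδ, div_mul_eq_mul_div, div_le_div_iff₀ (by positivity) (by positivity)]
    nlinarith
  have q5 : (∫ u in a..b, g u * f T u) - S * ∫ u in a..b, g u =
      ((∫ u in a..b, g u * f T u) - ∫ u in a..b, p.eval u * f T u) +
      ((∫ u in a..b, p.eval u * f T u) - S * ∫ u in a..b, p.eval u) +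
      (-(S * ((∫ u in a..b, g u) - ∫ u in a..b, p.eval u))) := by ring
  rw [q5]
  have q6 := abs_add_three ((∫ u in a..b, g u * f T u) - ∫ u in a..b, p.eval u * f T u)
    ((∫ u in a..b, p.eval u * f T u) - S * ∫ u in a..b, p.eval u)
    (-(S * ((∫ u in a..b, g u) - ∫ u in a..b, p.eval u)))
  rw [abs_neg] at q6
  linarith

theorem ab_core : ∀ (f : ℝ → ℝ → ℝ) (g : ℝ → ℝ) (S C : ℝ), (∀ T, Continuous (f T)) → (∀ T u, 0 ≤ f T u) →
  ContinuousOn g (Ioi 0) →
  (∀ᶠ T : ℝ in atTop, ∀ x : ℝ, 1 ≤ x → ∫ u in (0:ℝ)..x, f T u ≤ C * x ^ (3 / 2 : ℝ)) →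
  (∀ x : ℝ, 0 < x → Tendsto (fun T => ∫ u in (0:ℝ)..x, f T u) atTop (𝓝 (S * x))) →
  (∀ u : ℝ, 0 < u → |g u| ≤ C ∧ |g u| * u ^ 2 ≤ C) →
  Tendsto (fun T => ∫ u in Ioi (0:ℝ), g u * f T u) atTop (𝓝 (S * ∫ u in Ioi (0:ℝ), g u)) := by
  intro f g S C hf hf0 hg hF hlim hgb
  have hC : 0 ≤ C := (abs_nonneg _).trans (hgb 1 one_pos).1
  rw [Metric.tendsto_nhds]
  intro ε hε
  -- the head
  set a : ℝ := ε / (8 * (C + 1) * (|S| + 1)) with ha'
  have ha : 0 < a := by positivity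
  have hSa : C * ((|S| + 1) * a) ≤ ε / 8 := by
    rw [ha']
    have : C * ((|S| + 1) * (ε / (8 * (C + 1) * (|S| + 1)))) = C * ε / (8 * (C + 1)) := by
      field_simp
    rw [this, div_le_div_iff₀ (by positivity) (by positivity)]
    nlinarith
  have hSa2 : |S| * (C * a) ≤ ε / 8 := by
    have : |S| * (C * a) ≤ C * ((|S| + 1) * a) := by
      have : 0 ≤ C * a := by positivity
      nlinarith
    linarith
  obtain ⟨b, hb1, hb2, hb3⟩ := exists_large (4 * C * C + |S| * (4 * 1 * C)) (ε / 8) (by positivity) (a + 1)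
  have hab : a < b := by linarith
  have hb0 : 0 < b := by linarith
  have hga : ContinuousOn g (Icc a b) := hg.mono (fun u hu => lt_of_lt_of_le ha hu.1)
  have hmid := (Metric.tendsto_nhds.1 (mid_lim hf hf0 hF hlim hC ha hab hb1 hga)) (ε / 8) (by positivity)
  have hFa : ∀ᶠ T in atTop, ∫ u in (0:ℝ)..a, f T u ≤ (|S| + 1) * a := by
    have h1 : S * a < (|S| + 1) * a := by
      apply mul_lt_mul_of_pos_right _ ha
      linarith [le_abs_self S]
    exact (hlim a ha).eventually_le_const h1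
  have hF1 : ∀ x : ℝ, 1 ≤ x → ∫ u in (0:ℝ)..x, (1:ℝ) ≤ 1 * x ^ (3 / 2 : ℝ) := by
    intro x hx
    simp only [intervalIntegral.integral_const, sub_zero, smul_eq_mul, mul_one, one_mul]
    calc x = x ^ (1 : ℝ) := (Real.rpow_one x).symm
      _ ≤ x ^ (3 / 2 : ℝ) := Real.rpow_le_rpow_of_exponent_le hx (by norm_num)
  have h1i := integ (f := fun _ => (1:ℝ)) continuous_const (fun _ => zero_le_one) hg hF1 hgb
  have h1h := (head (f := fun _ => (1:ℝ)) continuous_const (fun _ => zero_le_one) hg (fun u hu => (hgb u hu).1) ha.le).2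
  have h1t := (tail (f := fun _ => (1:ℝ)) continuous_const (fun _ => zero_le_one) hg hF1 (fun u hu => (hgb u hu).2) hb1).2
  have h1s := split h1i ha.le hab.le
  simp only [mul_one] at h1i h1h h1t h1s
  rw [intervalIntegral.integral_const, sub_zero, smul_eq_mul, mul_one] at h1h
  filter_upwards [hF, hmid, hFa] with T h1 h2 h3
  rw [Real.dist_eq] at h2 ⊢
  have hi := integ (hf T) (hf0 T) hg h1 hgb
  have p1 := (head (hf T) (hf0 T) hg (fun u hu => (hgb u hu).1) ha.le).2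
  have p3 := (tail (hf T) (hf0 T) hg h1 (fun u hu => (hgb u hu).2) hb1).2
  rw [split hi ha.le hab.le, h1s]
  have p4 := mul_le_mul_of_nonneg_left h3 hC
  have p5 : |S * ∫ u in Ioc 0 a, g u| ≤ |S| * (C * a) := by
    rw [abs_mul]; exact mul_le_mul_of_nonneg_left h1h (abs_nonneg _)
  have p6 : |S * ∫ u in Ioi b, g u| ≤ |S| * (4 * C * b ^ (-(1 / 2) : ℝ)) := by
    rw [abs_mul]; exact mul_le_mul_of_nonneg_left h1t (abs_nonneg _)
  have p7 : (4 * C * C + |S| * (4 * 1 * C)) * b ^ (-(1 / 2) : ℝ) =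
    4 * C * C * b ^ (-(1 / 2) : ℝ) + |S| * (4 * C * b ^ (-(1 / 2) : ℝ)) := by ring
  rw [p7] at hb3
  rw [abs_lt]
  have r1 := abs_le.1 p1
  have r3 := abs_le.1 p3
  have r2 := abs_lt.1 h2
  have r5 := abs_le.1 p5
  have r6 := abs_le.1 p6
  constructor <;> linarith [r1.1, r1.2, r2.1, r2.2, r3.1, r3.2, r5.1, r5.2, r6.1, r6.2]

end

end Pool.Agent.K4H49.SV.CM
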