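import Mathlib

set_option autoImplicit false

/-!
# Integrals against kernels with quadratic decay
-/

namespace Pool.Agent.K4H49.SV.CM

open MeasureTheory Filter Topology Set

noncomputable section

lemma A_nonneg {f : ℝ → ℝ} {A : ℝ} (hf0 : ∀ u, 0 ≤ f u)
    (hF : ∀ x : ℝ, 1 ≤ x → ∫ u in (0:ℝ)..x, f u ≤ A * x ^ (3 / 2 : ℝ)) : 0 ≤ A := by
  have h1 := hF 1 le_rfl
  have h2 : 0 ≤ ∫ u in (0:ℝ)..1, f u := intervalIntegral.integral_nonneg (by norm_num) (fun u _ => hf0 u)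
  rw [Real.one_rpow] at h1
  linarith

lemma tail_aux {f : ℝ → ℝ} {A : ℝ} (hf : Continuous f) (hf0 : ∀ u, 0 ≤ f u)
    (hF : ∀ x : ℝ, 1 ≤ x → ∫ u in (0:ℝ)..x, f u ≤ A * x ^ (3 / 2 : ℝ)) {b : ℝ} (hb : 1 ≤ b) {X : ℝ} (hX : b ≤ X) :
    ∫ u in b..X, f u / u ^ 2 ≤ 4 * A * b ^ (-(1 / 2) : ℝ) := by
  have hA : 0 ≤ A := A_nonneg hf0 hF
  set w : ℝ → ℝ := fun u => f u / (max 1 u) ^ 2 with hw
  have hwc : Continuous w := by
    apply hf.div (by fun_prop)
    intro u
    have : (0:ℝ) < max 1 u := lt_of_lt_of_le one_pos (le_max_left _ _)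
    positivity
  set Φ : ℝ → ℝ := fun x => (∫ u in b..x, w u) - (∫ u in (0:ℝ)..x, f u) / x ^ 2 + 4 * A * x ^ (-(1 / 2) : ℝ) with hΦ
  have hder : ∀ x, b ≤ x → HasDerivAt Φ (w x - (f x * x ^ 2 - (∫ u in (0:ℝ)..x, f u) * (2 * x)) / (x ^ 2) ^ 2 +
      4 * A * (-(1 / 2) * x ^ (-(1 / 2) - 1 : ℝ))) x := by
    intro x hx
    have hx0 : 0 < x := by linarith
    have h1 : HasDerivAt (fun x => ∫ u in b..x, w u) (w x) x := (hwc.integral_hasStrictDerivAt b x).hasDerivAt
    have h2 : HasDerivAt (fun x => ∫ u in (0:ℝ)..x, f u) (f x) x := (hf.integral_hasStrictDerivAt 0 x).hasDerivAt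
    have h3 : HasDerivAt (fun x : ℝ => x ^ 2) (2 * x) x := by simpa using hasDerivAt_pow 2 x
    have h4 : HasDerivAt (fun x : ℝ => x ^ (-(1 / 2) : ℝ)) (-(1 / 2) * x ^ (-(1 / 2) - 1 : ℝ)) x :=
      Real.hasDerivAt_rpow_const (Or.inl hx0.ne')
    exact (h1.sub (h2.div h3 (by positivity))).add (h4.const_mul (4 * A))
  have hanti : AntitoneOn Φ (Ici b) := by
    refine antitoneOn_of_deriv_nonpos (convex_Ici b)
      (fun x hx => (hder x hx).continuousAt.continuousWithinAt)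
      (fun x hx => (hder x (interior_subset hx)).differentiableAt.differentiableWithinAt) ?_
    intro x hx
    have hx' : b ≤ x := interior_subset hx
    have hx0 : 0 < x := by linarith
    rw [(hder x hx').deriv]
    have hmax : max 1 x = x := max_eq_right (by linarith)
    have h5 : x ^ (-(1 / 2) - 1 : ℝ) = x ^ (3 / 2 : ℝ) / x ^ 3 := by
      rw [eq_div_iff (by positivity), ← Real.rpow_natCast x 3, ← Real.rpow_add hx0]
      norm_num
    have h6 := hF x (by linarith)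
    have h7 : w x - (f x * x ^ 2 - (∫ u in (0:ℝ)..x, f u) * (2 * x)) / (x ^ 2) ^ 2 +
      4 * A * (-(1 / 2) * x ^ (-(1 / 2) - 1 : ℝ)) = 2 * ((∫ u in (0:ℝ)..x, f u) - A * x ^ (3 / 2 : ℝ)) / x ^ 3 := by
      simp only [hw, hmax]
      rw [h5]
      field_simp
      ring
    rw [h7]
    apply div_nonpos_of_nonpos_of_nonneg
    · linarith
    · positivity
  have h8 := hanti (mem_Ici.2 le_rfl) (mem_Ici.2 hX) hX
  have hX0 : 0 < X := by linarith
  have hb0 : 0 < b := by linarith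
  have h9 : (∫ u in b..X, f u / u ^ 2) = ∫ u in b..X, w u := by
    apply intervalIntegral.integral_congr
    intro u hu
    rw [uIcc_of_le hX] at hu
    simp only [hw]
    rw [max_eq_right (by linarith [hu.1])]
  rw [h9]
  simp only [hΦ, intervalIntegral.integral_same] at h8
  have h10 : 0 ≤ (∫ u in (0:ℝ)..b, f u) / b ^ 2 := by
    apply div_nonneg _ (by positivity)
    exact intervalIntegral.integral_nonneg hb0.le (fun u _ => hf0 u)
  have h11 : (∫ u in (0:ℝ)..X, f u) / X ^ 2 ≤ A * X ^ (-(1 / 2) : ℝ) := by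
    rw [div_le_iff₀ (by positivity)]
    have h12 : A * X ^ (-(1 / 2) : ℝ) * X ^ 2 = A * X ^ (3 / 2 : ℝ) := by
      rw [mul_assoc, ← Real.rpow_natCast X 2, ← Real.rpow_add hX0]
      norm_num
    rw [h12]
    exact hF X (by linarith)
  have h13 : 0 ≤ A * X ^ (-(1 / 2) : ℝ) := by positivity
  linarith

/-- the tail beyond `b` -/
lemma tail {f G : ℝ → ℝ} {A C : ℝ} (hf : Continuous f) (hf0 : ∀ u, 0 ≤ f u)
    (hG : ContinuousOn G (Ioi 0))
    (hF : ∀ x : ℝ, 1 ≤ x → ∫ u in (0:ℝ)..x, f u ≤ A * x ^ (3 / 2 : ℝ))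
    (hGb : ∀ u : ℝ, 0 < u → |G u| * u ^ 2 ≤ C) {b : ℝ} (hb : 1 ≤ b) :
    IntegrableOn (fun u => G u * f u) (Ioi b) ∧
      |∫ u in Ioi b, G u * f u| ≤ 4 * A * C * b ^ (-(1 / 2) : ℝ) := by
  have hC : 0 ≤ C := by
    have := hGb 1 one_pos
    have h2 := abs_nonneg (G 1)
    nlinarith
  have hb0 : 0 < b := by linarith
  have hcont : ∀ X, ContinuousOn (fun u => G u * f u) (Icc b X) := fun X =>
    (hG.mono (fun u hu => lt_of_lt_of_le hb0 hu.1)).mul hf.continuousOn
  have hbound : ∀ X, b ≤ X → ∫ u in b..X, ‖G u * f u‖ ≤ 4 * A * C * b ^ (-(1 / 2) : ℝ) := by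
    intro X hX
    have h1 : ∫ u in b..X, ‖G u * f u‖ ≤ ∫ u in b..X, C * (f u / u ^ 2) := by
      apply intervalIntegral.integral_mono_on hX
      · apply ContinuousOn.intervalIntegrable
        rw [uIcc_of_le hX]
        exact (hcont X).norm
      · apply ContinuousOn.intervalIntegrable
        rw [uIcc_of_le hX]
        apply ContinuousOn.mul continuousOn_const
        apply hf.continuousOn.div (by fun_prop)
        intro u hu
        have : 0 < u := lt_of_lt_of_le hb0 hu.1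
        positivity
      · intro u hu
        have hu0 : 0 < u := lt_of_lt_of_le hb0 hu.1
        rw [norm_mul, Real.norm_eq_abs, Real.norm_eq_abs, abs_of_nonneg (hf0 u)]
        have h2 := hGb u hu0
        have h3 : |G u| ≤ C / u ^ 2 := by
          rw [le_div_iff₀ (by positivity)]; exact h2
        calc |G u| * f u ≤ C / u ^ 2 * f u := mul_le_mul_of_nonneg_right h3 (hf0 u)
          _ = C * (f u / u ^ 2) := by ring
    rw [intervalIntegral.integral_const_mul] at h1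
    have h4 := mul_le_mul_of_nonneg_left (tail_aux hf hf0 hF hb hX) hC
    linarith
  have hint : IntegrableOn (fun u => G u * f u) (Ioi b) := by
    refine integrableOn_Ioi_of_intervalIntegral_norm_bounded (4 * A * C * b ^ (-(1 / 2) : ℝ)) b
      (b := fun n : ℕ => (n : ℝ)) (l := atTop) ?_ tendsto_natCast_atTop_atTop ?_
    · intro n
      exact ((hcont n).integrableOn_compact isCompact_Icc).mono_set Ioc_subset_Icc_self
    · filter_upwards [tendsto_natCast_atTop_atTop.eventually_ge_atTop b] with n hn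
      exact hbound n hn
  refine ⟨hint, ?_⟩
  have h5 : Tendsto (fun n : ℕ => ∫ u in b..(n:ℝ), G u * f u) atTop (𝓝 (∫ u in Ioi b, G u * f u)) :=
    intervalIntegral_tendsto_integral_Ioi b hint tendsto_natCast_atTop_atTop
  have h6 := h5.abs
  apply le_of_tendsto h6
  filter_upwards [tendsto_natCast_atTop_atTop.eventually_ge_atTop b] with n hn
  have h7 := intervalIntegral.norm_integral_le_integral_norm (f := fun u => G u * f u) (μ := volume) hn
  rw [Real.norm_eq_abs] at h7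
  exact h7.trans (hbound n hn)

/-- the part near zero -/
lemma head {f G : ℝ → ℝ} {C : ℝ} (hf : Continuous f) (hf0 : ∀ u, 0 ≤ f u)
    (hG : ContinuousOn G (Ioi 0)) (hGb : ∀ u : ℝ, 0 < u → |G u| ≤ C) {a : ℝ} (ha : 0 ≤ a) :
    IntegrableOn (fun u => G u * f u) (Ioc 0 a) ∧
      |∫ u in Ioc 0 a, G u * f u| ≤ C * ∫ u in (0:ℝ)..a, f u := by
  have hint0 : IntegrableOn (fun u => C * f u) (Ioc 0 a) :=
    ((continuous_const.mul hf).continuousOn.integrableOn_compact isCompact_Icc).mono_set Ioc_subset_Icc_self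
  have hmeas : AEStronglyMeasurable (fun u => G u * f u) (volume.restrict (Ioc 0 a)) := by
    apply ContinuousOn.aestronglyMeasurable _ measurableSet_Ioc
    exact (hG.mono (fun u hu => hu.1)).mul hf.continuousOn
  have hle : ∀ᵐ u ∂(volume.restrict (Ioc 0 a)), ‖G u * f u‖ ≤ C * f u := by
    refine (ae_restrict_iff' measurableSet_Ioc).2 (Eventually.of_forall ?_)
    intro u hu
    rw [norm_mul, Real.norm_eq_abs, Real.norm_eq_abs, abs_of_nonneg (hf0 u)]
    exact mul_le_mul_of_nonneg_right (hGb u hu.1) (hf0 u)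
  refine ⟨Integrable.mono' hint0 hmeas hle, ?_⟩
  have h1 := norm_integral_le_of_norm_le hint0 hle
  rw [Real.norm_eq_abs] at h1
  rw [intervalIntegral.integral_of_le ha, ← integral_const_mul]
  exact h1

/-- integrability on the half line -/
lemma integ {f G : ℝ → ℝ} {A C : ℝ} (hf : Continuous f) (hf0 : ∀ u, 0 ≤ f u)
    (hG : ContinuousOn G (Ioi 0))
    (hF : ∀ x : ℝ, 1 ≤ x → ∫ u in (0:ℝ)..x, f u ≤ A * x ^ (3 / 2 : ℝ))
    (hGb : ∀ u : ℝ, 0 < u → |G u| ≤ C ∧ |G u| * u ^ 2 ≤ C) :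
    IntegrableOn (fun u => G u * f u) (Ioi 0) := by
  have h1 := (head hf hf0 hG (fun u hu => (hGb u hu).1) (zero_le_one)).1
  have h2 := (tail hf hf0 hG hF (fun u hu => (hGb u hu).2) le_rfl).1
  rw [← Ioc_union_Ioi_eq_Ioi (zero_le_one : (0:ℝ) ≤ 1)]
  exact h1.union h2

/-- splitting the half line -/
lemma split {H : ℝ → ℝ} (hH : IntegrableOn H (Ioi 0)) {a b : ℝ} (ha : 0 ≤ a) (hab : a ≤ b) :
    ∫ u in Ioi (0:ℝ), H u = (∫ u in Ioc 0 a, H u) + (∫ u in a..b, H u) + ∫ u in Ioi b, H u := by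
  have h1 : ∫ u in Ioi (0:ℝ), H u = (∫ u in Ioc 0 b, H u) + ∫ u in Ioi b, H u := by
    rw [← Ioc_union_Ioi_eq_Ioi (ha.trans hab)]
    apply setIntegral_union _ measurableSet_Ioi
    · exact hH.mono_set (fun u hu => hu.1)
    · exact hH.mono_set (fun u hu => lt_of_le_of_lt (ha.trans hab) hu)
    · rw [Set.disjoint_left]
      intro u hu hu2
      exact absurd hu.2 (not_le.2 hu2)
  have h2 : ∫ u in Ioc 0 b, H u = (∫ u in Ioc 0 a, H u) + ∫ u in a..b, H u := by
    rw [intervalIntegral.integral_of_le hab, ← Ioc_union_Ioc_eq_Ioc ha hab]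
    apply setIntegral_union _ measurableSet_Ioc
    · exact hH.mono_set (fun u hu => hu.1)
    · exact hH.mono_set (fun u hu => lt_of_le_of_lt ha hu.1)
    · rw [Set.disjoint_left]
      intro u hu hu2
      exact absurd hu.2 (not_le.2 hu2.1)
  rw [h1, h2]

theorem bd_core : ∃ K : ℝ, 0 ≤ K ∧ ∀ (f G : ℝ → ℝ) (A C : ℝ), 0 ≤ A → 0 ≤ C → Continuous f → (∀ u, 0 ≤ f u) →
  ContinuousOn G (Ioi 0) → (∀ x : ℝ, 1 ≤ x → ∫ u in (0:ℝ)..x, f u ≤ A * x ^ (3 / 2 : ℝ)) →
  (∀ u : ℝ, 0 < u → |G u| ≤ C ∧ |G u| * u ^ 2 ≤ C) →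
  IntegrableOn (fun u => G u * f u) (Ioi 0) ∧ |∫ u in Ioi (0:ℝ), G u * f u| ≤ K * A * C := by
  refine ⟨5, by norm_num, ?_⟩
  intro f G A C hA hC hf hf0 hG hF hGb
  have hint := integ hf hf0 hG hF hGb
  refine ⟨hint, ?_⟩
  rw [split hint zero_le_one le_rfl, intervalIntegral.integral_same, add_zero]
  have h1 := (head hf hf0 hG (fun u hu => (hGb u hu).1) (zero_le_one)).2
  have h2 := (tail hf hf0 hG hF (fun u hu => (hGb u hu).2) le_rfl).2
  rw [Real.one_rpow] at h2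
  have h3 := hF 1 le_rfl
  rw [Real.one_rpow] at h3
  have h4 := mul_le_mul_of_nonneg_left h3 hC
  have h5 := abs_add_le (∫ u in Ioc (0:ℝ) 1, G u * f u) (∫ u in Ioi (1:ℝ), G u * f u)
  linarith

end

end Pool.Agent.K4H49.SV.CM
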